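import Pool.Agent.helper31.RLS.Spec

set_option autoImplicit false

namespace Pool.Agent.RLS

open Set

/-- monotonicity of the two functions up to a point `T` before which the two inequalities hold -/
theorem DM_mono {u : ℝ} {G H : ℝ → ℝ} (hD : DDE u G H)
    (e1 : ∀ s, 2 ≤ s → s ≤ 4 → H s = Real.log (s - 1))
    (e2 : ∀ s, 3 < s → s < u → HasDerivAt G (H (s - 1) / (s - 1)) s)
    (e3 : ∀ s, 2 < s → s < u → HasDerivAt H (G (s - 1) / (s - 1)) s)
    {T : ℝ} (h3 : 3 ≤ T) (hT : T ≤ u)
    (h : ∀ s, 3 < s → s < T → H (s - 1) / (s - 1) ≤ G s / s ∧ H s / s ≤ G (s - 1) / (s - 1)) :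
    AntitoneOn (fun s => G s / s) (Icc 1 T) ∧ MonotoneOn (fun s => H s / s) (Icc 2 T) := by
  constructor
  · have h13 : AntitoneOn (fun s => G s / s) (Icc 1 3) := by
      intro x hx y hy hxy
      simp only
      rw [hD.g3 x hx.2, hD.g3 y hy.2]
      exact one_div_le_one_div_of_le (by linarith [hx.1]) hxy
    have h3T : AntitoneOn (fun s => G s / s) (Icc 3 T) := by
      refine antitoneOn_of_deriv_nonpos (convex_Icc 3 T) ?_ ?_ ?_
      · exact hD.cG.continuousOn.div continuousOn_id fun x hx => by
          have h5 := hx.1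
          have h6 : (0 : ℝ) < x := by linarith
          exact h6.ne'
      · intro x hx
        rw [interior_Icc] at hx
        have hx0 : x ≠ 0 := by
          have h6 : (0 : ℝ) < x := by linarith [hx.1]
          exact h6.ne'
        have h7 := (e2 x hx.1 (lt_of_lt_of_le hx.2 hT)).div (hasDerivAt_id x) hx0
        exact h7.differentiableAt.differentiableWithinAt
      · intro x hx
        rw [interior_Icc] at hx
        have hxp : (0 : ℝ) < x := by linarith [hx.1]
        have h7 := (e2 x hx.1 (lt_of_lt_of_le hx.2 hT)).div (hasDerivAt_id x) hxp.ne'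
        have h8 : deriv (fun s => G s / s) x =
            (H (x - 1) / (x - 1) * x - G x * 1) / x ^ 2 := h7.deriv
        rw [h8]
        have h9 := (le_div_iff₀ hxp).1 (h x hx.1 hx.2).1
        exact div_nonpos_of_nonpos_of_nonneg (by linarith) (sq_nonneg x)
    have h10 := h13.union_right h3T (isGreatest_Icc (by norm_num)) (isLeast_Icc h3)
    rwa [Icc_union_Icc_eq_Icc (by norm_num) h3] at h10
  · refine monotoneOn_of_deriv_nonneg (convex_Icc 2 T) ?_ ?_ ?_
    · exact hD.cH.continuousOn.div continuousOn_id fun x hx => by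
        have h5 := hx.1
        have h6 : (0 : ℝ) < x := by linarith
        exact h6.ne'
    · intro x hx
      rw [interior_Icc] at hx
      have hx0 : x ≠ 0 := by
        have h6 : (0 : ℝ) < x := by linarith [hx.1]
        exact h6.ne'
      have h7 := (e3 x hx.1 (lt_of_lt_of_le hx.2 hT)).div (hasDerivAt_id x) hx0
      exact h7.differentiableAt.differentiableWithinAt
    · intro x hx
      rw [interior_Icc] at hx
      have hx1 := hx.1
      have hxp : (0 : ℝ) < x := by linarith
      have h7 := (e3 x hx.1 (lt_of_lt_of_le hx.2 hT)).div (hasDerivAt_id x) hxp.ne'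
      have h8 : deriv (fun s => H s / s) x =
          (G (x - 1) / (x - 1) * x - H x * 1) / x ^ 2 := h7.deriv
      rw [h8]
      refine div_nonneg ?_ (sq_nonneg x)
      rcases le_or_gt x 3 with hx3 | hx3
      · have h9 : H x = Real.log (x - 1) := e1 x hx1.le (by linarith)
        have h10 : G (x - 1) = 1 := hD.g3 _ (by linarith)
        have h11 : Real.log (x - 1) ≤ x - 1 - 1 := Real.log_le_sub_one_of_pos (by linarith)
        have h12 : 1 ≤ 1 / (x - 1) * x := by
          rw [one_div_mul_eq_div, le_div_iff₀ (by linarith)]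
          linarith
        rw [h9, h10]
        linarith
      · have h9 := (div_le_iff₀ hxp).1 (h x hx3 hx.2).2
        linarith

theorem DM (h1 : DE_stmt) (h2 : DQ_stmt) : DM_stmt := by
  intro u G H hu hD
  obtain ⟨e1, e2, e3⟩ := h1 u G H hu hD
  have hq := h2 u G H hu hD
  have key : ∀ s, 3 ≤ s → s ≤ u → H (s - 1) / (s - 1) < G s / s ∧ H s / s < G (s - 1) / (s - 1) := by
    by_contra hcon
    push Not at hcon
    set S : Set ℝ := {s | s ∈ Icc 3 u ∧ (G s / s ≤ H (s - 1) / (s - 1) ∨ G (s - 1) / (s - 1) ≤ H s / s)}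
      with hS
    have hne : S.Nonempty := by
      obtain ⟨s, hs3, hsu, hs⟩ := hcon
      refine ⟨s, ⟨hs3, hsu⟩, ?_⟩
      rcases le_or_gt (G s / s) (H (s - 1) / (s - 1)) with h | h
      · exact Or.inl h
      · exact Or.inr (hs h)
    have hclosed : IsClosed S := by
      have hcG1 : ContinuousOn (fun s => G s / s) (Icc 3 u) :=
        hD.cG.continuousOn.div continuousOn_id fun x hx => by
          have h5 := hx.1
          have h6 : (0 : ℝ) < x := by linarith
          exact h6.ne'
      have hcH1 : ContinuousOn (fun s => H s / s) (Icc 3 u) :=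
        hD.cH.continuousOn.div continuousOn_id fun x hx => by
          have h5 := hx.1
          have h6 : (0 : ℝ) < x := by linarith
          exact h6.ne'
      have hcG2 : ContinuousOn (fun s => G (s - 1) / (s - 1)) (Icc 3 u) :=
        (hD.cG.comp (continuous_id.sub continuous_const)).continuousOn.div
          (continuous_id.sub continuous_const).continuousOn fun x hx => by
          have h5 := hx.1
          have h6 : (0 : ℝ) < x - 1 := by linarith
          exact h6.ne'
      have hcH2 : ContinuousOn (fun s => H (s - 1) / (s - 1)) (Icc 3 u) :=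
        (hD.cH.comp (continuous_id.sub continuous_const)).continuousOn.div
          (continuous_id.sub continuous_const).continuousOn fun x hx => by
          have h5 := hx.1
          have h6 : (0 : ℝ) < x - 1 := by linarith
          exact h6.ne'
      have hA : IsClosed {s | s ∈ Icc 3 u ∧ G s / s ≤ H (s - 1) / (s - 1)} :=
        isClosed_Icc.isClosed_le hcG1 hcH2
      have hB : IsClosed {s | s ∈ Icc 3 u ∧ G (s - 1) / (s - 1) ≤ H s / s} :=
        isClosed_Icc.isClosed_le hcG2 hcH1
      have hAB : S = {s | s ∈ Icc 3 u ∧ G s / s ≤ H (s - 1) / (s - 1)} ∪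
          {s | s ∈ Icc 3 u ∧ G (s - 1) / (s - 1) ≤ H s / s} := by
        ext s
        simp only [hS, mem_ofPred_eq, mem_union]
        tauto
      rw [hAB]
      exact hA.union hB
    have hbdd : BddBelow S := ⟨3, fun s hs => hs.1.1⟩
    have hmem := hclosed.csInf_mem hne hbdd
    set s₁ := sInf S with hs₁
    obtain ⟨⟨h31, h1u⟩, hbad⟩ := hmem
    have hmin : ∀ s, 3 < s → s < s₁ →
        H (s - 1) / (s - 1) ≤ G s / s ∧ H s / s ≤ G (s - 1) / (s - 1) := by
      intro s hs3 hs1
      have hnot : s ∉ S := fun hmem => absurd (csInf_le hbdd hmem) (not_le.2 hs1)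
      constructor
      · by_contra h
        exact hnot ⟨⟨hs3.le, hs1.le.trans h1u⟩, Or.inl (not_le.1 h).le⟩
      · by_contra h
        exact hnot ⟨⟨hs3.le, hs1.le.trans h1u⟩, Or.inr (not_le.1 h).le⟩
    obtain ⟨hF, hf⟩ := DM_mono hD e1 e2 e3 h31 h1u hmin
    have hs0 : (0 : ℝ) < s₁ := by linarith
    have hlt : H s₁ / s₁ < G s₁ / s₁ := div_lt_div_of_pos_right (hq s₁ (by linarith) h1u) hs0
    have h5 : H (s₁ - 1) / (s₁ - 1) ≤ H s₁ / s₁ :=
      hf ⟨by linarith, by linarith⟩ ⟨by linarith, le_rfl⟩ (by linarith)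
    have h6 : G s₁ / s₁ ≤ G (s₁ - 1) / (s₁ - 1) :=
      hF ⟨by linarith, by linarith⟩ ⟨by linarith, le_rfl⟩ (by linarith)
    rcases hbad with h7 | h7
    · linarith
    · linarith
  exact DM_mono hD e1 e2 e3 (by linarith) le_rfl fun s hs3 hsu =>
    ⟨(key s hs3.le hsu.le).1.le, (key s hs3.le hsu.le).2.le⟩

end Pool.Agent.RLS
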